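import Mathlib

set_option autoImplicit false

/-!
# Reduction of a number field at primes with many roots of unity, trivial subquotients
-/

namespace Pool.Agent.W959.NF

open NumberField

/-- An endomorphism `T` without eigenvalues that are roots of unity: no power of `T` is the
identity on a nonzero subquotient. -/
theorem subq {E V : Type} [Field E] [IsAlgClosed E] [AddCommGroup V] [Module E V]
    [FiniteDimensional E V] (T : Module.End E V)
    (hT : ∀ v : E, T.HasEigenvalue v → ∀ M : ℕ, 0 < M → v ^ M ≠ 1) {n : ℕ} (hn : 0 < n)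
    {W₁ W₂ : Submodule E V} (h12 : W₁ ≤ W₂) (hW : ∀ w ∈ W₂, (T ^ n) w - w ∈ W₁) : W₁ = W₂ := by
  have hinj : Function.Injective (T ^ n - 1 : Module.End E V) := by
    rw [← LinearMap.ker_eq_bot, LinearMap.ker_eq_bot']
    intro w hw
    by_contra hw0
    have h1 : (T ^ n).HasEigenvalue (1 : E) := by
      refine Module.End.hasEigenvalue_of_hasEigenvector (x := w) ⟨?_, hw0⟩
      rw [Module.End.mem_eigenspace_iff, one_smul]
      have := hw
      rw [LinearMap.sub_apply, Module.End.one_apply, sub_eq_zero] at this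
      exact this
    have h2 : (1 : E) ∈ spectrum E (T ^ n) := h1.mem_spectrum
    rw [spectrum.map_pow_of_pos T hn] at h2
    obtain ⟨v, hv, hv1⟩ := h2
    exact hT v (Module.End.hasEigenvalue_iff_mem_spectrum.2 hv) n hn hv1
  refine Submodule.eq_of_le_of_finrank_le h12 ?_
  have h3 : W₂.map (T ^ n - 1 : Module.End E V) ≤ W₁ := by
    rintro x ⟨w, hw, rfl⟩
    exact hW w hw
  have h4 : Module.finrank E (W₂.map (T ^ n - 1 : Module.End E V)) = Module.finrank E W₂ :=
    (LinearEquiv.finrank_eq (Submodule.equivMapOfInjective _ hinj W₂)).symm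
  rw [← h4]
  exact Submodule.finrank_mono h3

/-- A finite field of characteristic `c = 1` modulo `N` contains a primitive `N`-th root of unity. -/
theorem prim (k : Type) [Field k] [Fintype k] (c N : ℕ) [Fact c.Prime] [CharP k c]
    (hc : N ∣ c - 1) : ∃ z : k, IsPrimitiveRoot z N := by
  classical
  obtain ⟨f, -, hf⟩ := FiniteField.card k c
  have h1 : N ∣ Fintype.card k - 1 := by
    rw [hf]
    refine hc.trans ?_
    have := Nat.sub_dvd_pow_sub_pow c 1 (f : ℕ)
    rwa [one_pow] at this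
  obtain ⟨g, hg⟩ := IsCyclic.exists_ofOrder_eq_natCard (α := kˣ)
  have h2 : orderOf g = Fintype.card k - 1 := by
    rw [hg, Nat.card_eq_fintype_card, Fintype.card_units]
  have h3 : 0 < Fintype.card k - 1 := by
    have := Fintype.one_lt_card (α := k)
    omega
  obtain ⟨e, he⟩ := h1
  have he0 : 0 < e := by
    rcases Nat.eq_zero_or_pos e with h | h
    · rw [h, mul_zero] at he
      omega
    · exact h
  refine ⟨((g ^ e : kˣ) : k), ?_⟩
  rw [IsPrimitiveRoot.coe_units_iff]
  have h4 : orderOf (g ^ e) = N := by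
    rw [orderOf_pow_of_dvd he0.ne' (by rw [h2, he]; exact dvd_mul_left _ _), h2, he]
    exact Nat.mul_div_cancel _ he0
  rw [← h4]
  exact IsPrimitiveRoot.orderOf _

/-- Infinitely many maximal ideals of a number field have residue characteristic `1` modulo `N`. -/
theorem exP (K : Type) [Field K] [NumberField K] (N : ℕ) (hN : 0 < N) (S : Set (Ideal (𝓞 K)))
    (hS : S.Finite) : ∃ (c : ℕ) (P : Ideal (𝓞 K)), c.Prime ∧ c ≡ 1 [MOD N] ∧ P.IsMaximal ∧
      (c : 𝓞 K) ∈ P ∧ P ∉ S := by
  have hinf := Nat.infinite_setOfPred_prime_modEq_one hN.ne'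
  have hex : ∀ c : ℕ, c.Prime → ∃ P : Ideal (𝓞 K), P.IsMaximal ∧ (c : 𝓞 K) ∈ P := by
    intro c hc
    have h1 : Ideal.span {(c : 𝓞 K)} ≠ ⊤ := by
      intro h
      rw [Ideal.span_singleton_eq_top] at h
      have h2 := (NumberField.isUnit_iff_norm (x := (c : 𝓞 K))).1 h
      have h3 : ((RingOfIntegers.norm ℚ (c : 𝓞 K) : 𝓞 ℚ) : ℚ) = (c : ℚ) ^ Module.finrank ℚ K := by
        rw [RingOfIntegers.coe_norm]
        simpa using Algebra.norm_algebraMap (R := ℚ) (S := K) (c : ℚ)
      rw [h3] at h2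
      have h4 : (1 : ℚ) < (c : ℚ) ^ Module.finrank ℚ K :=
        one_lt_pow₀ (by exact_mod_cast hc.one_lt) Module.finrank_pos.ne'
      rw [abs_of_pos (by linarith)] at h2
      linarith
    obtain ⟨P, hP, hle⟩ := Ideal.exists_le_maximal _ h1
    exact ⟨P, hP, hle (Ideal.mem_span_singleton_self _)⟩
  choose! F hF1 hF2 using hex
  have hinj : Set.InjOn F {p : ℕ | Nat.Prime p ∧ p ≡ 1 [MOD N]} := by
    rintro c ⟨hc, -⟩ c' ⟨hc', -⟩ h
    by_contra hne
    have hco : Nat.Coprime c c' := (Nat.coprime_primes hc hc').2 hne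
    have h1 : IsCoprime (c : ℤ) (c' : ℤ) := Nat.isCoprime_iff_coprime.2 hco
    obtain ⟨a, b, hab⟩ := h1
    have h2 : (1 : 𝓞 K) ∈ F c := by
      have h3 : ((a : 𝓞 K) * (c : 𝓞 K) + (b : 𝓞 K) * (c' : 𝓞 K)) = 1 := by
        have := congrArg (fun t : ℤ => (t : 𝓞 K)) hab
        push_cast at this
        exact this
      rw [← h3]
      refine Ideal.add_mem _ (Ideal.mul_mem_left _ _ (hF2 c hc)) (Ideal.mul_mem_left _ _ ?_)
      rw [h]
      exact hF2 c' hc'
    exact (hF1 c hc).ne_top ((Ideal.eq_top_iff_one _).2 h2)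
  obtain ⟨P, ⟨c, hc, rfl⟩, hPS⟩ := (hinf.image hinj).exists_notMem_finite hS
  exact ⟨c, F c, hc.1, hc.2, hF1 c hc.1, hF2 c hc.1, hPS⟩

end Pool.Agent.W959.NF
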